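import Mathlib

/-!
# Kronecker powers, polynomials as tensors, wedges (for Chevalley's theorem)
-/

set_option autoImplicit false

namespace Pool.Agent.Lib.MP_d9b062_al.H61C

open Matrix Finset

/-- Kronecker power of a matrix. -/
def kpow {I : Type*} [Fintype I] [DecidableEq I] (n : ℕ) :
    Matrix I I ℝ →* Matrix (Fin n → I) (Fin n → I) ℝ where
  toFun M := Matrix.of fun s t => ∏ j, M (s j) (t j)
  map_one' := by
    ext s t
    simp only [of_apply, one_apply]
    rw [Finset.prod_ite_zero]
    simp [funext_iff]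
  map_mul' M M' := by
    ext s t
    simp only [of_apply, mul_apply]
    rw [prod_univ_sum, Fintype.piFinset_univ]
    refine sum_congr rfl (fun x _ => ?_)
    rw [prod_mul_distrib]

lemma kpow_apply {I : Type*} [Fintype I] [DecidableEq I] (n : ℕ) (M : Matrix I I ℝ)
    (s t : Fin n → I) : kpow n M s t = ∏ j, M (s j) (t j) := rfl

lemma kpow_conjTranspose {I : Type*} [Fintype I] [DecidableEq I] (n : ℕ) (M : Matrix I I ℝ) :
    kpow n (Mᴴ) = (kpow n M)ᴴ := by
  ext s t
  simp [kpow_apply, conjTranspose_apply]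

/-- The index set of the affine coordinates of an `N × N` matrix. -/
abbrev Ix (N : ℕ) := (Fin N × Fin N) ⊕ Unit

/-- right multiplication by a matrix, in the affine coordinates -/
def bmap (N : ℕ) : Matrix (Fin N) (Fin N) ℝ →* Matrix (Ix N) (Ix N) ℝ where
  toFun T := fromBlocks (Matrix.of fun p q => if p.1 = q.1 then T p.2 q.2 else 0) 0 0 1
  map_one' := by
    rw [← fromBlocks_one]
    congr 1
    ext p q
    obtain ⟨i, j⟩ := p
    obtain ⟨i', j'⟩ := q
    simp only [of_apply, one_apply, Prod.mk.injEq]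
    split_ifs <;> simp_all
  map_mul' T T' := by
    rw [fromBlocks_multiply]
    simp only [Matrix.mul_zero, Matrix.zero_mul, add_zero, zero_add, Matrix.mul_one]
    congr 1
    ext p q
    obtain ⟨i, j⟩ := p
    obtain ⟨i', j'⟩ := q
    simp only [of_apply, mul_apply, Fintype.sum_prod_type]
    symm
    rw [Finset.sum_eq_single i]
    · by_cases h : i = i'
      · simp [h]
      · simp [h]
    · intro b _ hb
      refine sum_eq_zero (fun x _ => ?_)
      rw [if_neg (Ne.symm hb), zero_mul]
    · simp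

lemma bmap_apply (N : ℕ) (T : Matrix (Fin N) (Fin N) ℝ) :
    bmap N T = fromBlocks (Matrix.of fun p q => if p.1 = q.1 then T p.2 q.2 else 0) 0 0 1 := rfl

lemma bmap_conjTranspose (N : ℕ) (T : Matrix (Fin N) (Fin N) ℝ) :
    bmap N (Tᴴ) = (bmap N T)ᴴ := by
  rw [bmap_apply, bmap_apply, fromBlocks_conjTranspose]
  simp only [conjTranspose_zero, conjTranspose_one]
  congr 1
  ext p q
  simp only [of_apply, conjTranspose_apply, eq_comm (a := p.1)]
  split_ifs <;> simp

/-- affine coordinates of a matrix -/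
def tl {N : ℕ} (X : Matrix (Fin N) (Fin N) ℝ) : Ix N → ℝ :=
  Sum.elim (fun ij => X ij.1 ij.2) (fun _ => 1)

lemma tl_mul {N : ℕ} (X T : Matrix (Fin N) (Fin N) ℝ) (s : Ix N) :
    tl (X * T) s = ∑ u, tl X u * bmap N T u s := by
  rw [bmap_apply, Fintype.sum_sum_type]
  rcases s with ⟨i, j⟩ | ⟨⟩
  · simp only [tl, Sum.elim_inl, mul_apply, fromBlocks_apply₁₁, fromBlocks_apply₂₁, of_apply,
      Fintype.sum_prod_type, Matrix.zero_apply, mul_zero, sum_const_zero, add_zero]
    symm
    rw [Finset.sum_eq_single i]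
    · simp
    · intro b _ hb
      refine sum_eq_zero (fun x _ => ?_)
      rw [if_neg hb, mul_zero]
    · simp
  · simp [tl]

/-- the polynomial function of a tensor -/
def FF {N : ℕ} (d : ℕ) (a : (Fin d → Ix N) → ℝ) (X : Matrix (Fin N) (Fin N) ℝ) : ℝ :=
  ∑ s, a s * ∏ j, tl X (s j)

lemma FF_add {N : ℕ} (d : ℕ) (a b : (Fin d → Ix N) → ℝ) (X : Matrix (Fin N) (Fin N) ℝ) :
    FF d (a + b) X = FF d a X + FF d b X := by
  simp only [FF, Pi.add_apply, add_mul, sum_add_distrib]

lemma FF_smul {N : ℕ} (d : ℕ) (c : ℝ) (a : (Fin d → Ix N) → ℝ) (X : Matrix (Fin N) (Fin N) ℝ) :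
    FF d (c • a) X = c * FF d a X := by
  simp only [FF, Pi.smul_apply, smul_eq_mul, mul_sum, mul_assoc]

lemma FF_mulVec {N : ℕ} (d : ℕ) (a : (Fin d → Ix N) → ℝ) (X T : Matrix (Fin N) (Fin N) ℝ) :
    FF d (kpow d (bmap N T) *ᵥ a) X = FF d a (X * T) := by
  simp only [FF, mulVec, dotProduct, kpow_apply, sum_mul]
  rw [sum_comm]
  refine sum_congr rfl (fun s _ => ?_)
  have : ∏ j, tl (X * T) (s j) =
      ∑ u : Fin d → Ix N, ∏ j, (tl X (u j) * bmap N T (u j) (s j)) := by
    simp only [tl_mul]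
    rw [prod_univ_sum, Fintype.piFinset_univ]
  rw [this, mul_sum]
  refine sum_congr rfl (fun u _ => ?_)
  rw [prod_mul_distrib]
  ring

/-- multiplication of a tensor by a linear form -/
def consT {N : ℕ} {d : ℕ} (c : Ix N → ℝ) (a : (Fin d → Ix N) → ℝ) :
    (Fin (d + 1) → Ix N) → ℝ := fun s => c (s 0) * a (fun j => s j.succ)

lemma FF_consT {N : ℕ} {d : ℕ} (c : Ix N → ℝ) (a : (Fin d → Ix N) → ℝ)
    (X : Matrix (Fin N) (Fin N) ℝ) :
    FF (d + 1) (consT c a) X = (∑ u, c u * tl X u) * FF d a X := by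
  unfold FF
  rw [← (Fin.consEquiv (fun _ : Fin (d + 1) => Ix N)).sum_comp, Fintype.sum_prod_type, sum_mul_sum]
  refine sum_congr rfl (fun u _ => sum_congr rfl (fun s _ => ?_))
  simp only [consT, Fin.consEquiv_apply, Fin.cons_zero, Fin.cons_succ, Fin.prod_univ_succ]
  ring

lemma sum_single_tl {N : ℕ} (u : Ix N) (X : Matrix (Fin N) (Fin N) ℝ) :
    ∑ v, (Pi.single u 1 : Ix N → ℝ) v * tl X v = tl X u := by
  rw [Finset.sum_eq_single u]
  · simp
  · intro b _ hb
    simp [Pi.single_eq_of_ne hb]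
  · simp

/-- every polynomial comes from tensors of all large orders -/
lemma exists_FF {N : ℕ} (p : MvPolynomial (Fin N × Fin N) ℝ) :
    ∃ d : ℕ, ∀ d', d ≤ d' → ∃ a : (Fin d' → Ix N) → ℝ, ∀ X : Matrix (Fin N) (Fin N) ℝ,
      FF d' a X = MvPolynomial.eval (fun ij => X ij.1 ij.2) p := by
  induction p using MvPolynomial.induction_on with
  | C r =>
    refine ⟨0, fun d' _ => ?_⟩
    induction d' with
    | zero =>
      refine ⟨fun _ => r, fun X => ?_⟩
      simp [FF]
    | succ d' ih =>
      obtain ⟨a, ha⟩ := ih (Nat.zero_le _)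
      refine ⟨consT (Pi.single (Sum.inr ()) 1) a, fun X => ?_⟩
      rw [FF_consT, sum_single_tl, ha]
      simp [tl]
  | add p q hp hq =>
    obtain ⟨d, hd⟩ := hp
    obtain ⟨d1, hd1⟩ := hq
    refine ⟨max d d1, fun d' hd' => ?_⟩
    obtain ⟨a, ha⟩ := hd d' (le_trans (le_max_left _ _) hd')
    obtain ⟨b, hb⟩ := hd1 d' (le_trans (le_max_right _ _) hd')
    refine ⟨a + b, fun X => ?_⟩
    rw [FF_add, ha, hb, map_add]
  | mul_X p i hp =>
    obtain ⟨d, hd⟩ := hp
    refine ⟨d + 1, fun d' hd' => ?_⟩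
    obtain ⟨d', rfl⟩ : ∃ k, d' = k + 1 := ⟨d' - 1, by omega⟩
    obtain ⟨a, ha⟩ := hd d' (by omega)
    refine ⟨consT (Pi.single (Sum.inl i) 1) a, fun X => ?_⟩
    rw [FF_consT, sum_single_tl, ha, map_mul, MvPolynomial.eval_X, mul_comm]
    rfl

/-- multilinearity of the determinant -/
lemma ml {S : Type*} [Fintype S] {k : ℕ} (c f : Fin k → S → ℝ) :
    ∑ s : Fin k → S, (∏ j, c j (s j)) * (Matrix.of fun j i => f i (s j)).det =
      (Matrix.of fun j i => ∑ x, c j x * f i x).det := by
  have h := (detRowAlternating (n := Fin k) (R := ℝ)).toMultilinearMap.map_sum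
    (g := fun (j : Fin k) (x : S) => c j x • (fun i => f i x))
  have e1 : (fun j => ∑ x, c j x • (fun i => f i x)) =
      (fun j i => ∑ x, c j x * f i x) := by
    funext j i
    simp [Finset.sum_apply]
  rw [e1] at h
  change (Matrix.of fun j i => ∑ x, c j x * f i x).det = _ at h
  rw [h]
  refine sum_congr rfl (fun s _ => ?_)
  rw [MultilinearMap.map_smul_univ]
  rfl

/-- the wedge of `k` functions, as a function on `S ^ k` -/
def wedge {S : Type*} {k : ℕ} (f : Fin k → S → ℝ) : (Fin k → S) → ℝ :=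
  fun s => (Matrix.of fun j i => f i (s j)).det

lemma kpow_mulVec_wedge {S : Type*} [Fintype S] [DecidableEq S] {k : ℕ} (M : Matrix S S ℝ)
    (f : Fin k → S → ℝ) : kpow k M *ᵥ wedge f = wedge (fun i => M *ᵥ f i) := by
  funext s
  simp only [mulVec, dotProduct, kpow_apply, wedge]
  rw [ml (fun j => M (s j)) f]

lemma wedge_comb {S : Type*} {k : ℕ} (f f' : Fin k → S → ℝ) (C : Matrix (Fin k) (Fin k) ℝ)
    (h : ∀ i x, f' i x = ∑ l, C i l * f l x) : wedge f' = C.det • wedge f := by
  funext s
  have : (Matrix.of fun j i => f' i (s j)) = (Matrix.of fun j i => f i (s j)) * Cᵀ := by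
    ext j i
    simp only [of_apply, mul_apply, transpose_apply, h]
    exact sum_congr rfl (fun l _ => mul_comm _ _)
  simp only [wedge, Pi.smul_apply, smul_eq_mul]
  rw [this, det_mul, det_transpose, mul_comm]

lemma exists_dual {S : Type*} [Fintype S] [DecidableEq S] {k : ℕ} (f : Fin k → S → ℝ)
    (hf : LinearIndependent ℝ f) :
    ∃ c : Fin k → S → ℝ, ∀ j i, ∑ x, c j x * f i x = if j = i then 1 else 0 := by
  obtain ⟨g, hg⟩ := LinearMap.exists_leftInverse_of_injective
    (Fintype.linearCombination ℝ f)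
    (LinearMap.ker_eq_bot.mpr hf.fintypeLinearCombination_injective)
  refine ⟨fun j x => g (Pi.single x 1) j, fun j i => ?_⟩
  have h1 : g (f i) = Pi.single i 1 := by
    have := LinearMap.congr_fun hg (Pi.single i 1)
    simpa [Fintype.linearCombination_apply_single] using this
  have h2 : f i = ∑ x, f i x • (Pi.single x 1 : S → ℝ) := by
    ext y
    simp [Finset.sum_apply, Pi.single_apply]
  have h3 : g (f i) j = ∑ x, f i x * g (Pi.single x 1) j := by
    conv_lhs => rw [h2]
    simp [map_sum, Finset.sum_apply]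
  calc ∑ x, g (Pi.single x 1) j * f i x = g (f i) j := by
        rw [h3]; exact sum_congr rfl (fun x _ => mul_comm _ _)
    _ = if j = i then 1 else 0 := by rw [h1, Pi.single_apply]

lemma wedge_ne_zero {S : Type*} [Fintype S] [DecidableEq S] {k : ℕ} (f : Fin k → S → ℝ)
    (hf : LinearIndependent ℝ f) : wedge f ≠ 0 := by
  obtain ⟨c, hc⟩ := exists_dual f hf
  intro h0
  have h := ml c f
  have e1 : (Matrix.of fun j i => ∑ x, c j x * f i x) = 1 := by
    ext j i
    rw [of_apply, hc, one_apply]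
  rw [e1, det_one] at h
  have : ∑ s : Fin k → S, (∏ j, c j (s j)) * (Matrix.of fun j i => f i (s j)).det = 0 := by
    refine sum_eq_zero (fun s _ => ?_)
    have : (Matrix.of fun j i => f i (s j)).det = 0 := congr_fun h0 s
    rw [this, mul_zero]
  rw [this] at h
  exact zero_ne_one h

lemma mem_span_of_wedge {S : Type*} [Fintype S] [DecidableEq S] {k : ℕ} (f f' : Fin k → S → ℝ)
    (hf : LinearIndependent ℝ f) (α : ℝ) (hα : α ≠ 0) (h : wedge f' = α • wedge f) (i0 : Fin k) :
    f i0 ∈ Submodule.span ℝ (Set.range f') := by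
  obtain ⟨c, hc⟩ := exists_dual f hf
  set K : Fin k → ℝ := fun i =>
    cramer (Matrix.of fun j i => ∑ x, c j x * f' i x)ᵀ (Pi.single i 1) i0 with hK
  have key : ∀ x : S, ∑ i, f' i x * K i = α * f i0 x := by
    intro x
    have h1 := ml (Function.update c i0 (Pi.single x 1)) f'
    have h2 := ml (Function.update c i0 (Pi.single x 1)) f
    have e1 : (Matrix.of fun j i => ∑ y, Function.update c i0 (Pi.single x 1) j y * f' i y) =
        updateRow (Matrix.of fun j i => ∑ x, c j x * f' i x) i0 (fun i => f' i x) := by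
      ext j i
      by_cases hj : j = i0
      · subst hj
        simp [Pi.single_apply]
      · simp [updateRow_ne hj, Function.update_of_ne hj]
    have e2 : (Matrix.of fun j i => ∑ y, Function.update c i0 (Pi.single x 1) j y * f i y) =
        updateRow 1 i0 (fun i => f i x) := by
      ext j i
      by_cases hj : j = i0
      · subst hj
        simp [Pi.single_apply]
      · simp only [of_apply, updateRow_ne hj, Function.update_of_ne hj, hc, one_apply]
    rw [e1, ← cramer_transpose_apply] at h1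
    rw [e2, ← cramer_transpose_apply, transpose_one, cramer_one] at h2
    have e3 : ∑ s : Fin k → S, (∏ j, Function.update c i0 (Pi.single x 1) j (s j)) *
        (Matrix.of fun j i => f' i (s j)).det = α *
        ∑ s : Fin k → S, (∏ j, Function.update c i0 (Pi.single x 1) j (s j)) *
        (Matrix.of fun j i => f i (s j)).det := by
      rw [mul_sum]
      refine sum_congr rfl (fun s _ => ?_)
      have : (Matrix.of fun j i => f' i (s j)).det =
          α * (Matrix.of fun j i => f i (s j)).det := congr_fun h s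
      rw [this]; ring
    rw [h1, h2] at e3
    have e4 : (1 : (Fin k → ℝ) →ₗ[ℝ] (Fin k → ℝ)) (fun i => f i x) i0 = f i0 x := rfl
    rw [e4] at e3
    rw [← e3, LinearMap.pi_apply_eq_sum_univ]
    simp only [Finset.sum_apply, Pi.smul_apply, smul_eq_mul, hK]
    refine sum_congr rfl (fun i _ => ?_)
    have e5 : (Pi.single i 1 : Fin k → ℝ) = fun j => if i = j then 1 else 0 := by
      funext j
      simp [Pi.single_apply, eq_comm]
    rw [e5]
  have h5 : f i0 = ∑ i, (α⁻¹ * K i) • f' i := by
    funext x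
    simp only [Finset.sum_apply, Pi.smul_apply, smul_eq_mul]
    have := key x
    calc f i0 x = α⁻¹ * (α * f i0 x) := by field_simp
      _ = α⁻¹ * ∑ i, f' i x * K i := by rw [this]
      _ = _ := by
        rw [mul_sum]
        exact sum_congr rfl (fun i _ => by ring)
  rw [h5]
  exact Submodule.sum_mem _ (fun i _ => Submodule.smul_mem _ _ (Submodule.subset_span ⟨i, rfl⟩))

end Pool.Agent.Lib.MP_d9b062_al.H61C
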