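import Pool.Agent.Lib.MP_d9b062_al.Poly
import Pool.Agent.Lib.MP_d9b062_al_h61.Tensor

/-!
# MOS1: a Zariski closed group is the stabilizer of a line (Chevalley)
-/

set_option autoImplicit false

namespace Pool.Agent.Lib.MP_d9b062_al

open Matrix Finset

namespace H61C

/-- matrices as operators -/
noncomputable abbrev EC (m : ℕ) : Matrix (Fin m) (Fin m) ℝ ≃⋆ₐ[ℝ] Op m :=
  Matrix.toEuclideanCLM (𝕜 := ℝ) (n := Fin m)

lemma EC_symm_apply {N : ℕ} (T : Op N) (i j : Fin N) :
    (EC N).symm T i j = T (EuclideanSpace.single j 1) i := by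
  obtain ⟨M, hM⟩ : ∃ M, EC N M = T := ⟨(EC N).symm T, (EC N).apply_symm_apply T⟩
  subst hM
  rw [StarAlgEquiv.symm_apply_apply]
  have h : (EC N M (EuclideanSpace.single j 1)) i = (M *ᵥ Pi.single j 1) i := rfl
  rw [h, mulVec_single_one]
  rfl

lemma polyVal_eq {N : ℕ} (p : MvPolynomial (Fin N × Fin N) ℝ) (T : Op N) :
    polyVal p T = MvPolynomial.eval (fun ij => (EC N).symm T ij.1 ij.2) p := by
  unfold polyVal
  have h : (fun ij : Fin N × Fin N => T (EuclideanSpace.single ij.2 1) ij.1) =
      fun ij => (EC N).symm T ij.1 ij.2 := by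
    funext ij
    exact (EC_symm_apply T ij.1 ij.2).symm
  rw [h]

/-- the representation on wedges of tensors, as matrices -/
noncomputable def rho (N d k : ℕ) :
    Op N →* Matrix (Fin k → Fin d → Ix N) (Fin k → Fin d → Ix N) ℝ :=
  (kpow k).comp ((kpow d).comp ((bmap N).comp ((EC N).symm : Op N →* _)))

lemma rho_apply (N d k : ℕ) (T : Op N) :
    rho N d k T = kpow k (kpow d (bmap N ((EC N).symm T))) := rfl

/-- the representation on wedges of tensors, as operators -/
noncomputable def RR (N d k m : ℕ) (e : (Fin k → Fin d → Ix N) ≃ Fin m) : Op N →* Op m where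
  toFun T := EC m (Matrix.reindex e e (rho N d k T))
  map_one' := by
    rw [map_one]
    simp
  map_mul' T T' := by
    rw [MonoidHom.map_mul, reindex_apply, reindex_apply, reindex_apply,
      ← map_mul (EC m), Matrix.submatrix_mul_equiv]

lemma RR_apply (N d k m : ℕ) (e : (Fin k → Fin d → Ix N) ≃ Fin m) (T : Op N) :
    RR N d k m e T = EC m (Matrix.reindex e e (rho N d k T)) := rfl

/-- vectors of the representation -/
noncomputable def vec {N d k m : ℕ} (e : (Fin k → Fin d → Ix N) ≃ Fin m)
    (v : (Fin k → Fin d → Ix N) → ℝ) : V m := WithLp.toLp 2 (v ∘ e.symm)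

lemma RR_vec {N d k m : ℕ} (e : (Fin k → Fin d → Ix N) ≃ Fin m) (T : Op N)
    (v : (Fin k → Fin d → Ix N) → ℝ) : RR N d k m e T (vec e v) = vec e (rho N d k T *ᵥ v) := by
  rw [RR_apply, vec, vec, toEuclideanCLM_toLp, reindex_apply, submatrix_mulVec_equiv,
    Equiv.symm_symm, Function.comp_assoc, Equiv.symm_comp_self, Function.comp_id]

lemma vec_injective {N d k m : ℕ} (e : (Fin k → Fin d → Ix N) ≃ Fin m) :
    Function.Injective (vec e) := by
  intro v v' h
  have h1 : v ∘ e.symm = v' ∘ e.symm := WithLp.toLp_injective 2 h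
  funext s
  have := congr_fun h1 (e s)
  simpa using this

lemma vec_smul {N d k m : ℕ} (e : (Fin k → Fin d → Ix N) ≃ Fin m) (a : ℝ)
    (v : (Fin k → Fin d → Ix N) → ℝ) : vec e (a • v) = a • vec e v := rfl

lemma RR_star (N d k m : ℕ) (e : (Fin k → Fin d → Ix N) ≃ Fin m) (T : Op N) :
    RR N d k m e (star T) = star (RR N d k m e T) := by
  have h1 : (EC N).symm (star T) = ((EC N).symm T)ᴴ := map_star (EC N).symm T
  have h2 : star (EC m (Matrix.reindex e e (rho N d k T))) =
      EC m (Matrix.reindex e e (rho N d k T))ᴴ := (map_star (EC m) _).symm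
  rw [RR_apply, RR_apply, h2, rho_apply, rho_apply, h1, bmap_conjTranspose, kpow_conjTranspose,
    kpow_conjTranspose, conjTranspose_reindex]

lemma polyFun_entry (N d k : ℕ) (s t : Fin k → Fin d → Ix N) :
    (fun T : Op N => rho N d k T s t) ∈ PolyFun (Op N) := by
  have h : (fun T : Op N => rho N d k T s t) = fun T =>
      ∏ j ∈ (univ : Finset (Fin k)), ∏ l ∈ (univ : Finset (Fin d)),
        bmap N ((EC N).symm T) (s j l) (t j l) := rfl
  rw [h]
  refine PolyFun.prod _ (fun j _ => PolyFun.prod _ (fun l _ => ?_))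
  rcases s j l with p | u <;> rcases t j l with q | u'
  · by_cases hpq : p.1 = q.1
    · let φ : Op N →ₗ[ℝ] ℝ :=
        { toFun := fun T => (EC N).symm T p.2 q.2
          map_add' := fun T T' => by rw [map_add]; rfl
          map_smul' := fun c T => by rw [map_smul]; rfl }
      have : (fun T : Op N => bmap N ((EC N).symm T) (Sum.inl p) (Sum.inl q)) = φ := by
        funext T
        rw [bmap_apply, fromBlocks_apply₁₁, of_apply, if_pos hpq]
        rfl
      rw [this]
      exact PolyFun.linear φ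
    · have : (fun T : Op N => bmap N ((EC N).symm T) (Sum.inl p) (Sum.inl q)) = fun _ => 0 := by
        funext T
        rw [bmap_apply, fromBlocks_apply₁₁, of_apply, if_neg hpq]
      rw [this]
      exact PolyFun.const 0
  · have : (fun T : Op N => bmap N ((EC N).symm T) (Sum.inl p) (Sum.inr u')) = fun _ => 0 := by
      funext T
      rw [bmap_apply, fromBlocks_apply₁₂, Matrix.zero_apply]
    rw [this]
    exact PolyFun.const 0
  · have : (fun T : Op N => bmap N ((EC N).symm T) (Sum.inr u) (Sum.inl q)) = fun _ => 0 := by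
      funext T
      rw [bmap_apply, fromBlocks_apply₂₁, Matrix.zero_apply]
    rw [this]
    exact PolyFun.const 0
  · have : (fun T : Op N => bmap N ((EC N).symm T) (Sum.inr u) (Sum.inr u')) =
        fun _ => (1 : Matrix Unit Unit ℝ) u u' := by
      funext T
      rw [bmap_apply, fromBlocks_apply₂₂]
    rw [this]
    exact PolyFun.const _

lemma RR_isPolyMap (N d k m : ℕ) (e : (Fin k → Fin d → Ix N) ≃ Fin m) :
    IsPolyMap (RR N d k m e : Op N → Op m) := by
  have h : (RR N d k m e : Op N → Op m) = fun T => ∑ i ∈ (univ : Finset (Fin m)),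
      ∑ j ∈ (univ : Finset (Fin m)),
        (rho N d k T (e.symm i) (e.symm j)) • EC m (Matrix.single i j 1) := by
    funext T
    rw [RR_apply]
    conv_lhs => rw [matrix_eq_sum_single (Matrix.reindex e e (rho N d k T))]
    rw [map_sum]
    refine sum_congr rfl (fun i _ => ?_)
    rw [map_sum]
    refine sum_congr rfl (fun j _ => ?_)
    rw [← map_smul, smul_single, smul_eq_mul, mul_one]
    rfl
  rw [h]
  exact IsPolyMap.sum _ (fun i _ => IsPolyMap.sum _ (fun j _ =>
    IsPolyMap.smul (polyFun_entry N d k _ _) (IsPolyMap.const _)))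

end H61C

open H61C in
/-- A Zariski closed group is the stabilizer of a line in a self-adjoint polynomial
representation. -/
theorem exists_chevalley {N : ℕ} (G : Subgroup (Op N)ˣ)
    (hcl : ∀ g : (Op N)ˣ, (∀ p : MvPolynomial (Fin N × Fin N) ℝ,
      (∀ h ∈ G, polyVal p (h : Op N) = 0) → polyVal p (g : Op N) = 0) → g ∈ G) :
    ∃ (m : ℕ) (R : Op N →* Op m) (w : V m), w ≠ 0 ∧ (∀ T, R (star T) = star (R T)) ∧
      IsPolyMap (R : Op N → Op m) ∧
      ∀ g : (Op N)ˣ, g ∈ G ↔ ∃ a : ℝ, R (g : Op N) w = a • w := by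
  classical
  let J : Ideal (MvPolynomial (Fin N × Fin N) ℝ) :=
    { carrier := {p | ∀ h ∈ G, polyVal p (h : Op N) = 0}
      add_mem' := fun {p q} hp hq h hh => by
        have := hp h hh
        have := hq h hh
        simp_all [polyVal]
      zero_mem' := fun h _ => by simp [polyVal]
      smul_mem' := fun c {p} hp h hh => by
        have := hp h hh
        simp_all [polyVal] }
  obtain ⟨gens, hgens⟩ := (inferInstance :
    IsNoetherianRing (MvPolynomial (Fin N × Fin N) ℝ)).noetherian J
  choose dd hdd using exists_FF (N := N)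
  obtain ⟨d, hd⟩ : ∃ d, ∀ p ∈ gens, dd p ≤ d := ⟨gens.sup dd, fun p hp => Finset.le_sup hp⟩
  let U : Submodule ℝ ((Fin d → Ix N) → ℝ) :=
    { carrier := {a | ∀ h ∈ G, FF d a ((EC N).symm (h : Op N)) = 0}
      add_mem' := fun {a b} ha hb h hh => by rw [FF_add, ha h hh, hb h hh, add_zero]
      zero_mem' := fun h _ => by simp [FF]
      smul_mem' := fun c {a} ha h hh => by rw [FF_smul, ha h hh, mul_zero] }
  have hUmul : ∀ g ∈ G, ∀ a ∈ U, kpow d (bmap N ((EC N).symm (g : Op N))) *ᵥ a ∈ U := by
    intro g hg a ha h hh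
    rw [FF_mulVec, ← map_mul]
    have := ha (h * g) (G.mul_mem hh hg)
    rwa [Units.val_mul] at this
  let k := Module.finrank ℝ U
  let b := Module.finBasis ℝ U
  let f : Fin k → (Fin d → Ix N) → ℝ := fun i => (b i : (Fin d → Ix N) → ℝ)
  have hf : LinearIndependent ℝ f := b.linearIndependent.map' U.subtype U.ker_subtype
  have hfU : ∀ i, f i ∈ U := fun i => (b i).2
  have hrepr : ∀ a ∈ U, ∃ c : Fin k → ℝ, ∀ x, a x = ∑ l, c l * f l x := by
    intro a ha
    refine ⟨fun l => b.repr ⟨a, ha⟩ l, fun x => ?_⟩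
    have h1 := congrArg (fun u : U => (u : (Fin d → Ix N) → ℝ) x) (b.sum_repr ⟨a, ha⟩)
    simp only [Submodule.coe_sum, Submodule.coe_smul, Finset.sum_apply, Pi.smul_apply,
      smul_eq_mul] at h1
    exact h1.symm
  let e := Fintype.equivFin (Fin k → Fin d → Ix N)
  refine ⟨_, RR N d k _ e, vec e (wedge f), ?_, RR_star N d k _ e, RR_isPolyMap N d k _ e,
    fun g => ⟨fun hg => ?_, ?_⟩⟩
  · intro h0
    exact wedge_ne_zero f hf (vec_injective e (h0.trans (by ext; rfl)))
  · choose c hc using fun i => hrepr _ (hUmul g hg _ (hfU i))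
    refine ⟨(Matrix.of c).det, ?_⟩
    rw [RR_vec, rho_apply, kpow_mulVec_wedge, wedge_comb f _ (Matrix.of c) hc, vec_smul]
  · rintro ⟨a, ha⟩
    rw [RR_vec, ← vec_smul] at ha
    have ha1 := vec_injective e ha
    have ha0 : a ≠ 0 := by
      rintro rfl
      rw [zero_smul] at ha1
      have h2 : rho N d k ((g⁻¹ : (Op N)ˣ) : Op N) *ᵥ (rho N d k (g : Op N) *ᵥ wedge f) =
          wedge f := by
        rw [mulVec_mulVec, ← map_mul, Units.inv_mul, map_one, one_mulVec]
      rw [ha1, mulVec_zero] at h2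
      exact wedge_ne_zero f hf h2.symm
    rw [rho_apply, kpow_mulVec_wedge] at ha1
    set M := kpow d (bmap N ((EC N).symm (g : Op N))) with hM
    have hle : U ≤ U.map M.mulVecLin := by
      intro x hx
      obtain ⟨c, hc⟩ := hrepr x hx
      have h1 : x = ∑ l, c l • f l := by
        funext y
        rw [hc y]
        simp [Finset.sum_apply]
      rw [h1]
      refine Submodule.sum_mem _ (fun l _ => Submodule.smul_mem _ _ ?_)
      have h2 := mem_span_of_wedge f (fun i => M *ᵥ f i) hf a ha0 ha1 l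
      refine (Submodule.span_le.mpr ?_) h2
      rintro _ ⟨i, rfl⟩
      exact ⟨f i, hfU i, rfl⟩
    have heq : U = U.map M.mulVecLin :=
      Submodule.eq_of_le_of_finrank_le hle (Submodule.finrank_map_le _ _)
    have hMU : ∀ x ∈ U, M *ᵥ x ∈ U := by
      intro x hx
      rw [heq]
      exact ⟨x, hx, rfl⟩
    apply hcl
    have hJ : J ≤ RingHom.ker (MvPolynomial.eval (fun ij : Fin N × Fin N =>
        (EC N).symm (g : Op N) ij.1 ij.2)) := by
      rw [← hgens, Submodule.span_le]
      intro p hp
      have hpJ : p ∈ J := by rw [← hgens]; exact Submodule.subset_span hp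
      obtain ⟨x, hx⟩ := hdd p d (hd p hp)
      have hxU : x ∈ U := by
        intro h hh
        rw [hx, ← polyVal_eq]
        exact hpJ h hh
      have h3 := hMU x hxU 1 G.one_mem
      rw [hM, FF_mulVec, Units.val_one, map_one, one_mul, hx] at h3
      exact h3
    intro p hp
    rw [polyVal_eq]
    exact hJ hp

end Pool.Agent.Lib.MP_d9b062_al
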