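import Pool.Agent.Lib.MP_d9b062_al.Poly

/-!
# The Goldsheid-Margulis theorem: rank one limits in Zariski dense subgroups
-/

namespace Pool.Agent.Lib.MP_d9b062_al

open Filter Asymptotics
open scoped Topology

namespace H61

/-- A compact semigroup of injective linear maps leaving a compact convex set invariant has a
common fixed point in it. -/
theorem exists_fixed {X : Type*} [AddCommGroup X] [TopologicalSpace X] [IsTopologicalAddGroup X]
    [T2Space X] [Module ℝ X] [ContinuousSMul ℝ X] [FiniteDimensional ℝ X] {A : Type*} [TopologicalSpace A] (act : A → X →ₗ[ℝ] X)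
    (hcont : Continuous fun p : X × A => act p.2 p.1) {T : Set A} (hT : IsCompact T)
    (hT0 : T.Nonempty) (hmul : ∀ a ∈ T, ∀ b ∈ T, ∃ c ∈ T, ∀ x, act c x = act a (act b x))
    (hinj : ∀ a ∈ T, Function.Injective (act a)) {K : Set X} (hK : IsCompact K)
    (hK0 : K.Nonempty) (hconv : Convex ℝ K) (hinv : ∀ a ∈ T, ∀ x ∈ K, act a x ∈ K) :
    ∃ x ∈ K, ∀ a ∈ T, act a x = x := by
  obtain ⟨e⟩ : Nonempty (X ≃L[ℝ] EuclideanSpace ℝ (Fin (Module.finrank ℝ X))) := ⟨toEuclidean⟩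
  let f : X → A → ℝ := fun x a => ‖e (act a x)‖
  have hf : Continuous ↿f := (e.continuous.comp hcont).norm
  let Φ : X → ℝ := fun x => sSup (f x '' T)
  have hΦ : Continuous Φ := hT.continuous_sSup hf
  have hle : ∀ x, ∀ a ∈ T, f x a ≤ Φ x := by
    intro x a ha
    refine le_csSup ?_ ⟨a, ha, rfl⟩
    exact (hT.image (hf.comp (Continuous.prodMk_right x))).bddAbove
  obtain ⟨x, hx, hmin⟩ := hK.exists_isMinOn hK0 hΦ.continuousOn
  refine ⟨x, hx, fun h hh => ?_⟩
  have hy : act h x ∈ K := hinv h hh x hx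
  set y := act h x with hydef
  have hm : (1 / 2 : ℝ) • x + (1 / 2 : ℝ) • y ∈ K :=
    hconv hx hy (by norm_num) (by norm_num) (by norm_num)
  set m := (1 / 2 : ℝ) • x + (1 / 2 : ℝ) • y with hmdef
  obtain ⟨g, hg, hgeq⟩ := hT.exists_sSup_image_eq hT0
    (hf.comp (Continuous.prodMk_right m)).continuousOn (f := f m)
  have h1 : Φ x ≤ f m g := by
    rw [← hgeq]; exact hmin hm
  have h2 : f x g ≤ Φ x := hle x g hg
  have h3 : f y g ≤ Φ x := by
    obtain ⟨c, hc, hceq⟩ := hmul g hg h hh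
    have : f y g = f x c := by
      simp only [f, hydef, hceq]
    rw [this]; exact hle x c hc
  have h4 : e (act g m) = (1 / 2 : ℝ) • (e (act g x) + e (act g y)) := by
    rw [hmdef]; simp [smul_add]
  have h5 := parallelogram_law_with_norm ℝ (e (act g x)) (e (act g y))
  have h6 : f m g ^ 2 = (1 / 4 : ℝ) * ‖e (act g x) + e (act g y)‖ ^ 2 := by
    simp only [f]
    rw [h4, norm_smul, mul_pow]
    norm_num
  have hΦ0 : 0 ≤ Φ x := (norm_nonneg _).trans h2
  have h7 : ‖e (act g x) - e (act g y)‖ ^ 2 ≤ 0 := by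
    have a1 : f x g ^ 2 ≤ Φ x ^ 2 := pow_le_pow_left₀ (norm_nonneg _) h2 2
    have a2 : f y g ^ 2 ≤ Φ x ^ 2 := pow_le_pow_left₀ (norm_nonneg _) h3 2
    have a3 : Φ x ^ 2 ≤ f m g ^ 2 := pow_le_pow_left₀ hΦ0 h1 2
    have a4 : ‖e (act g x)‖ ^ 2 = f x g ^ 2 := rfl
    have a5 : ‖e (act g y)‖ ^ 2 = f y g ^ 2 := rfl
    rw [a4, a5] at h5
    nlinarith
  have h8 : e (act g x) = e (act g y) := by
    have : ‖e (act g x) - e (act g y)‖ = 0 := by
      have := sq_nonneg ‖e (act g x) - e (act g y)‖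
      nlinarith [norm_nonneg (e (act g x) - e (act g y))]
    exact sub_eq_zero.mp (norm_eq_zero.mp this)
  exact (hinj g hg (e.injective h8)).symm

/-- A compact semigroup of injective linear maps has a fixed point in every closed convex set
containing an orbit. -/
theorem exists_fixed_of_orbit {X : Type*} [AddCommGroup X] [TopologicalSpace X]
    [IsTopologicalAddGroup X] [T2Space X] [Module ℝ X] [ContinuousSMul ℝ X]
    [FiniteDimensional ℝ X] {A : Type*} [TopologicalSpace A] (act : A → X →ₗ[ℝ] X)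
    (hcont : Continuous fun p : X × A => act p.2 p.1) {T : Set A} (hT : IsCompact T)
    (hT0 : T.Nonempty) (hmul : ∀ a ∈ T, ∀ b ∈ T, ∃ c ∈ T, ∀ x, act c x = act a (act b x))
    (hinj : ∀ a ∈ T, Function.Injective (act a)) (x0 : X) {C : Set X} (hC : IsClosed C)
    (hCc : Convex ℝ C) (horb : ∀ a ∈ T, act a x0 ∈ C) :
    ∃ x ∈ C, ∀ a ∈ T, act a x = x := by
  have hl : Continuous fun a => act a x0 := hcont.comp (Continuous.prodMk_right x0)
  have hr : ∀ a, Continuous fun x => act a x := fun a => hcont.comp (Continuous.prodMk_left a)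
  let O : Set X := (fun a => act a x0) '' T
  have hO : IsCompact O := hT.image hl
  let K : Set X := closure (convexHull ℝ O)
  have hKc : IsCompact K := by
    obtain ⟨e⟩ : Nonempty (X ≃L[ℝ] EuclideanSpace ℝ (Fin (Module.finrank ℝ X))) := ⟨toEuclidean⟩
    have h1 : IsCompact (closure (convexHull ℝ (e '' O))) :=
      Metric.isCompact_of_isClosed_isBounded isClosed_closure
        (isBounded_convexHull.mpr (hO.image e.continuous).isBounded).closure
    have h2 : e.symm '' (closure (convexHull ℝ (e '' O))) = K := by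
      have h3 : convexHull ℝ (e '' O) = e '' (convexHull ℝ O) :=
        ((e : X →ₗ[ℝ] EuclideanSpace ℝ (Fin (Module.finrank ℝ X))).image_convexHull O).symm
      rw [h3, ← e.image_closure, ← Set.image_comp]
      simp [K]
    rw [← h2]
    exact h1.image e.symm.continuous
  have hKconv : Convex ℝ K := (convex_convexHull ℝ O).closure
  have hK0 : K.Nonempty := by
    obtain ⟨a, ha⟩ := hT0
    exact ⟨act a x0, subset_closure (subset_convexHull ℝ O ⟨a, ha, rfl⟩)⟩
  have hOinv : ∀ a ∈ T, (act a) '' O ⊆ O := by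
    rintro a ha _ ⟨_, ⟨b, hb, rfl⟩, rfl⟩
    obtain ⟨c, hc, hceq⟩ := hmul a ha b hb
    exact ⟨c, hc, hceq x0⟩
  have hinv : ∀ a ∈ T, ∀ q ∈ K, act a q ∈ K := by
    intro a ha q hq
    have hmaps : Set.MapsTo (fun q => act a q) (convexHull ℝ O) (convexHull ℝ O) := by
      intro q' hq'
      have h0 : (act a) '' (convexHull ℝ O) = convexHull ℝ ((act a) '' O) :=
        (act a).image_convexHull O
      have h1 : act a q' ∈ convexHull ℝ ((act a) '' O) := by
        rw [← h0]; exact Set.mem_image_of_mem _ hq'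
      exact convexHull_mono (hOinv a ha) h1
    exact map_mem_closure (hr a) hq hmaps
  obtain ⟨q, hqK, hqfix⟩ := exists_fixed act hcont hT hT0 hmul hinj hKc hK0 hKconv hinv
  refine ⟨q, closure_minimal (convexHull_min ?_ hCc) hC hqK, hqfix⟩
  rintro _ ⟨a, ha, rfl⟩
  exact horb a ha

/-- pull back of a bilinear form by an operator -/
noncomputable def pull {I : Type*} [NormedAddCommGroup I] [NormedSpace ℝ I]
    (a : I →L[ℝ] I) : (I →L[ℝ] I →L[ℝ] ℝ) →ₗ[ℝ] (I →L[ℝ] I →L[ℝ] ℝ) where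
  toFun q := ((q.comp a).flip.comp a).flip
  map_add' q q' := by ext; simp
  map_smul' c q := by ext; simp

lemma pull_apply {I : Type*} [NormedAddCommGroup I] [NormedSpace ℝ I]
    (a : I →L[ℝ] I) (q : I →L[ℝ] I →L[ℝ] ℝ) (v w : I) : pull a q v w = q (a v) (a w) := rfl

lemma continuous_pull {I : Type*} [NormedAddCommGroup I] [NormedSpace ℝ I] :
    Continuous fun p : (I →L[ℝ] I →L[ℝ] ℝ) × (I →L[ℝ] I) => pull p.2 p.1 := by
  have hflip : Continuous fun q : I →L[ℝ] I →L[ℝ] ℝ => q.flip :=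
    (ContinuousLinearMap.flipₗᵢ ℝ I I ℝ).continuous
  have h1 : Continuous fun p : (I →L[ℝ] I →L[ℝ] ℝ) × (I →L[ℝ] I) => p.1.comp p.2 :=
    continuous_fst.clm_comp continuous_snd
  have h2 := hflip.comp ((hflip.comp h1).clm_comp continuous_snd)
  exact h2

lemma continuous_pull_right {I : Type*} [NormedAddCommGroup I] [NormedSpace ℝ I]
    (a : I →L[ℝ] I) : Continuous fun q : I →L[ℝ] I →L[ℝ] ℝ => pull a q := by
  have h := (continuous_pull (I := I)).comp (Continuous.prodMk_left a)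
  exact h

lemma continuous_pull_left {I : Type*} [NormedAddCommGroup I] [NormedSpace ℝ I]
    (q : I →L[ℝ] I →L[ℝ] ℝ) : Continuous fun a : I →L[ℝ] I => pull a q := by
  have h := (continuous_pull (I := I)).comp (Continuous.prodMk_right q)
  exact h

lemma pull_pull {I : Type*} [NormedAddCommGroup I] [NormedSpace ℝ I]
    (a b : I →L[ℝ] I) (q : I →L[ℝ] I →L[ℝ] ℝ) : pull a (pull b q) = pull (b * a) q := by
  ext v w
  simp only [pull_apply, mul_apply_eq_comp]

lemma surjective_of_det {I : Type*} [NormedAddCommGroup I] [NormedSpace ℝ I]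
    [FiniteDimensional ℝ I] (a : I →L[ℝ] I) (h : a.det ≠ 0) : Function.Surjective a := by
  exact (LinearMap.equivOfDetNeZero (a : I →ₗ[ℝ] I) h).surjective

lemma injective_of_det {I : Type*} [NormedAddCommGroup I] [NormedSpace ℝ I]
    [FiniteDimensional ℝ I] (a : I →L[ℝ] I) (h : a.det ≠ 0) : Function.Injective a := by
  exact (LinearMap.equivOfDetNeZero (a : I →ₗ[ℝ] I) h).injective

/-- a uniform lower bound for a Euclidean form -/
lemma exists_lower {I : Type*} [NormedAddCommGroup I] [NormedSpace ℝ I]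
    [FiniteDimensional ℝ I] [Nontrivial I] {T : Set (I →L[ℝ] I)} (hT : IsCompact T)
    (hT0 : T.Nonempty) (hdet : ∀ a ∈ T, a.det ≠ 0) :
    ∃ (q0 : I →L[ℝ] I →L[ℝ] ℝ) (c : ℝ), 0 < c ∧
      ∀ a ∈ T, ∀ v : I, c ^ 2 * ‖v‖ ^ 2 ≤ pull a q0 v v := by
  obtain ⟨e⟩ : Nonempty (I ≃L[ℝ] EuclideanSpace ℝ (Fin (Module.finrank ℝ I))) := ⟨toEuclidean⟩
  let q0 : I →L[ℝ] I →L[ℝ] ℝ :=
    ((innerSL ℝ (E := EuclideanSpace ℝ (Fin (Module.finrank ℝ I)))).bilinearComp
      (e : I →L[ℝ] EuclideanSpace ℝ (Fin (Module.finrank ℝ I)))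
      (e : I →L[ℝ] EuclideanSpace ℝ (Fin (Module.finrank ℝ I))))
  have hq0 : ∀ v, q0 v v = ‖e v‖ ^ 2 := by
    intro v
    exact real_inner_self_eq_norm_sq (e v)
  have hinj : ∀ a ∈ T, Function.Injective a := fun a ha => injective_of_det a (hdet a ha)
  have hsph : (Metric.sphere (0 : I) 1).Nonempty := NormedSpace.sphere_nonempty.mpr zero_le_one
  have : ProperSpace I := FiniteDimensional.proper ℝ I
  have hcont : Continuous fun p : (I →L[ℝ] I) × I => ‖e (p.1 p.2)‖ :=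
    (e.continuous.comp (continuous_fst.clm_apply continuous_snd)).norm
  obtain ⟨⟨a0, v0⟩, hav0, hmin⟩ := (hT.prod (isCompact_sphere (0 : I) 1)).exists_isMinOn
    (hT0.prod hsph) hcont.continuousOn
  have hcpos : 0 < ‖e (a0 v0)‖ := by
    rw [norm_pos_iff]
    intro h0
    have h1 : a0 v0 = 0 := by
      apply e.injective; rw [h0, map_zero]
    have h2 : v0 = 0 := hinj a0 hav0.1 (by rw [h1, map_zero])
    have h3 : ‖v0‖ = 1 := by simpa using hav0.2
    rw [h2, norm_zero] at h3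
    exact zero_ne_one h3
  refine ⟨q0, ‖e (a0 v0)‖, hcpos, ?_⟩
  intro a ha v
  rw [pull_apply, hq0, ← mul_pow]
  refine pow_le_pow_left₀ (by positivity) ?_ 2
  by_cases hv : v = 0
  · simp [hv]
  · have hv' : 0 < ‖v‖ := norm_pos_iff.mpr hv
    have h1 : ‖v‖⁻¹ • v ∈ Metric.sphere (0 : I) 1 := by
      simp [norm_smul, hv'.ne']
    have h2 : ‖e (a0 v0)‖ ≤ ‖e (a (‖v‖⁻¹ • v))‖ :=
      isMinOn_iff.mp hmin (a, ‖v‖⁻¹ • v) (Set.mk_mem_prod ha h1)
    rw [map_smul, map_smul, norm_smul, norm_inv, norm_norm] at h2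
    rwa [le_inv_mul_iff₀ hv', mul_comm] at h2

lemma isClosed_lower {I : Type*} [NormedAddCommGroup I] [NormedSpace ℝ I] (c : ℝ) :
    IsClosed {q : I →L[ℝ] I →L[ℝ] ℝ | ∀ v, c ^ 2 * ‖v‖ ^ 2 ≤ q v v} := by
  rw [Set.ofPred_forall]
  refine isClosed_iInter fun v => isClosed_le continuous_const ?_
  have h : Continuous fun q : I →L[ℝ] I →L[ℝ] ℝ => q v :=
    (ContinuousLinearMap.apply ℝ (I →L[ℝ] ℝ) v).continuous
  exact (ContinuousLinearMap.apply ℝ ℝ v).continuous.comp h

lemma convex_lower {I : Type*} [NormedAddCommGroup I] [NormedSpace ℝ I] (c : ℝ) :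
    Convex ℝ {q : I →L[ℝ] I →L[ℝ] ℝ | ∀ v, c ^ 2 * ‖v‖ ^ 2 ≤ q v v} := by
  intro q1 h1 q2 h2 s t hs ht hst v
  have e1 := h1 v
  have e2 := h2 v
  have : (s • q1 + t • q2) v v = s * q1 v v + t * q2 v v := by simp
  rw [this]
  have : c ^ 2 * ‖v‖ ^ 2 = s * (c ^ 2 * ‖v‖ ^ 2) + t * (c ^ 2 * ‖v‖ ^ 2) := by
    rw [← add_mul, hst, one_mul]
  rw [this]
  gcongr

/-- A compact semigroup of invertible operators preserves a positive definite symmetric form. -/
theorem exists_invariant_form {I : Type*} [NormedAddCommGroup I] [NormedSpace ℝ I]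
    [FiniteDimensional ℝ I] [Nontrivial I] {T : Set (I →L[ℝ] I)} (hT : IsCompact T)
    (hT0 : T.Nonempty) (hmul : ∀ a ∈ T, ∀ b ∈ T, a * b ∈ T) (hdet : ∀ a ∈ T, a.det ≠ 0) :
    ∃ q : I →L[ℝ] I →L[ℝ] ℝ, (∀ v, v ≠ 0 → 0 < q v v) ∧
      ∀ a ∈ T, ∀ v w, q (a v) (a w) = q v w := by
  obtain ⟨q0, c, hcpos, hlow⟩ := exists_lower hT hT0 hdet
  have hsurj : ∀ a ∈ T, Function.Surjective a := fun a ha => surjective_of_det a (hdet a ha)
  have hinj : ∀ a ∈ T, Function.Injective (pull a) := by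
    intro a ha q q' hqq'
    refine ContinuousLinearMap.ext fun v => ContinuousLinearMap.ext fun w => ?_
    obtain ⟨v', rfl⟩ := hsurj a ha v
    obtain ⟨w', rfl⟩ := hsurj a ha w
    rw [← pull_apply, ← pull_apply, hqq']
  have hmul' : ∀ a ∈ T, ∀ b ∈ T, ∃ c ∈ T, ∀ x : I →L[ℝ] I →L[ℝ] ℝ,
      pull c x = pull a (pull b x) :=
    fun a ha b hb => ⟨b * a, hmul b hb a ha, fun x => (pull_pull a b x).symm⟩
  have h1 := exists_fixed_of_orbit (X := I →L[ℝ] I →L[ℝ] ℝ) (A := I →L[ℝ] I) pull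
  obtain ⟨q, hqC, hqfix⟩ := h1 continuous_pull hT hT0 hmul' hinj q0 (isClosed_lower c)
    (convex_lower c) hlow
  refine ⟨q, ?_, ?_⟩
  · intro v hv
    have h1 := hqC v
    have : 0 < c ^ 2 * ‖v‖ ^ 2 := by
      have := norm_pos_iff.mpr hv
      positivity
    linarith
  · intro a ha v w
    rw [← pull_apply, hqfix a ha]

/-- If a group acts irreducibly, `a ρ(g) v = 0` for all `g` implies `a = 0` or `v = 0`. -/
lemma eq_zero_of_forall {W : Type*} [NormedAddCommGroup W] [NormedSpace ℝ W]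
    {𝒢 : Type*} [Group 𝒢] (ρ : 𝒢 →* (W →L[ℝ] W))
    (hirr : ∀ U : Submodule ℝ W, (∀ g, ∀ v ∈ U, ρ g v ∈ U) → U = ⊥ ∨ U = ⊤)
    (a : W →L[ℝ] W) {v : W} (hv : v ≠ 0) (h : ∀ g, a (ρ g v) = 0) : a = 0 := by
  let U : Submodule ℝ W :=
    { carrier := {u | ∀ g, a (ρ g u) = 0}
      add_mem' := by
        intro x y hx hy g
        rw [map_add, map_add, hx g, hy g, add_zero]
      zero_mem' := by intro g; simp
      smul_mem' := by
        intro c x hx g
        rw [map_smul, map_smul, hx g, smul_zero] }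
  have hU : ∀ g, ∀ u ∈ U, ρ g u ∈ U := by
    intro g u hu g'
    have := hu (g' * g)
    rw [map_mul] at this
    exact this
  rcases hirr U hU with h1 | h1
  · exact absurd ((Submodule.mem_bot ℝ).mp (h1 ▸ (show v ∈ U from h))) hv
  · refine ContinuousLinearMap.ext fun u => ?_
    have hu : u ∈ U := h1 ▸ Submodule.mem_top
    have := hu 1
    rwa [map_one] at this

/-- A closed semigroup and cone of operators, all of whose nonzero elements are invertible, and
which is not zero, preserves a positive definite form up to scalars. -/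
theorem exists_conformal_form {I : Type*} [NormedAddCommGroup I] [NormedSpace ℝ I]
    [FiniteDimensional ℝ I] [Nontrivial I] {S : Set (I →L[ℝ] I)} (hS : IsClosed S)
    (hmul : ∀ a ∈ S, ∀ b ∈ S, a * b ∈ S) (hsmul : ∀ (c : ℝ), ∀ a ∈ S, c • a ∈ S)
    (hdet : ∀ a ∈ S, a ≠ 0 → a.det ≠ 0) (hne : ∃ a ∈ S, a ≠ 0) :
    ∃ q : I →L[ℝ] I →L[ℝ] ℝ, (∀ v, v ≠ 0 → 0 < q v v) ∧
      ∀ a ∈ S, ∃ c : ℝ, ∀ v, q (a v) (a v) = c * q v v := by
  have : ProperSpace (I →L[ℝ] I) := FiniteDimensional.proper ℝ (I →L[ℝ] I)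
  have hdetc : Continuous fun a : I →L[ℝ] I => a.det := ContinuousLinearMap.continuous_det
  have hdetsmul : ∀ (c : ℝ) (a : I →L[ℝ] I),
      (c • a).det = c ^ Module.finrank ℝ I * a.det := by
    intro c a
    exact LinearMap.det_smul c (a : I →ₗ[ℝ] I)
  have hdetmul : ∀ a b : I →L[ℝ] I, (a * b).det = a.det * b.det := by
    intro a b
    exact LinearMap.det_comp (a : I →ₗ[ℝ] I) (b : I →ₗ[ℝ] I)
  set r := Module.finrank ℝ I with hr
  have hr0 : r ≠ 0 := Module.finrank_pos.ne'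
  have hdet0 : (0 : I →L[ℝ] I).det = 0 := by
    have := hdetsmul 0 0
    rwa [zero_smul, zero_pow hr0, zero_mul] at this
  -- normalisation
  have hnorm : ∀ a ∈ S, a ≠ 0 → ∃ c : ℝ, 0 < c ∧ c • a ∈ S ∧ |(c • a).det| = 1 := by
    intro a ha ha0
    have hd : 0 < |a.det| := abs_pos.mpr (hdet a ha ha0)
    refine ⟨(|a.det|⁻¹) ^ ((r : ℝ)⁻¹), by positivity, hsmul _ a ha, ?_⟩
    rw [hdetsmul, ← Real.rpow_natCast, ← Real.rpow_mul (by positivity),
      inv_mul_cancel₀ (by exact_mod_cast hr0), Real.rpow_one, abs_mul, abs_inv, abs_abs,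
      inv_mul_cancel₀ hd.ne']
  let G : Set (I →L[ℝ] I) := {a | a ∈ S ∧ |a.det| = 1}
  have hGclosed : IsClosed G := hS.inter (isClosed_eq hdetc.abs continuous_const)
  -- boundedness
  have hGbdd : Bornology.IsBounded G := by
    let P : Set (I →L[ℝ] I) := S ∩ Metric.sphere 0 1
    have hP : IsCompact P := (isCompact_sphere (0 : I →L[ℝ] I) 1).inter_left hS
    have hP0 : P.Nonempty := by
      obtain ⟨a, ha, ha0⟩ := hne
      refine ⟨‖a‖⁻¹ • a, hsmul _ a ha, ?_⟩
      simp [norm_smul, norm_ne_zero_iff.mpr ha0]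
    obtain ⟨a0, ha0, hmin⟩ := hP.exists_isMinOn hP0 (f := fun a : I →L[ℝ] I => |a.det|)
      hdetc.abs.continuousOn
    have ha0ne : a0 ≠ 0 := by
      rintro rfl
      have := ha0.2
      simp at this
    have hδ : 0 < |a0.det| := abs_pos.mpr (hdet a0 ha0.1 ha0ne)
    rw [isBounded_iff_forall_norm_le]
    refine ⟨max 1 (|a0.det|⁻¹), fun a ha => ?_⟩
    by_cases hle : ‖a‖ ≤ 1
    · exact hle.trans (le_max_left _ _)
    · push Not at hle
      refine le_trans ?_ (le_max_right _ _)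
      have hapos : 0 < ‖a‖ := zero_lt_one.trans hle
      have h1 : ‖a‖⁻¹ • a ∈ P := by
        refine ⟨hsmul _ a ha.1, ?_⟩
        simp [norm_smul, hapos.ne']
      have h2 : |a0.det| ≤ |(‖a‖⁻¹ • a).det| := isMinOn_iff.mp hmin _ h1
      rw [hdetsmul, abs_mul, ha.2, mul_one, abs_pow, abs_inv, abs_norm, inv_pow] at h2
      have h3 : ‖a‖ ≤ ‖a‖ ^ r := le_self_pow₀ hle.le hr0
      have h4 : ‖a‖ ^ r ≤ |a0.det|⁻¹ := by
        rw [le_inv_comm₀ (by positivity) hδ]
        exact h2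
      exact h3.trans h4
  have hGc : IsCompact G := Metric.isCompact_of_isClosed_isBounded hGclosed hGbdd
  have hG0 : G.Nonempty := by
    obtain ⟨a, ha, ha0⟩ := hne
    obtain ⟨c, -, hc1, hc2⟩ := hnorm a ha ha0
    exact ⟨c • a, hc1, hc2⟩
  have hGmul : ∀ a ∈ G, ∀ b ∈ G, a * b ∈ G := by
    intro a ha b hb
    refine ⟨hmul a ha.1 b hb.1, ?_⟩
    rw [hdetmul, abs_mul, ha.2, hb.2, one_mul]
  have hGdet : ∀ a ∈ G, a.det ≠ 0 := by
    intro a ha h0
    have := ha.2
    rw [h0] at this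
    simp at this
  obtain ⟨q, hqpos, hqinv⟩ := exists_invariant_form hGc hG0 hGmul hGdet
  refine ⟨q, hqpos, fun a ha => ?_⟩
  by_cases ha0 : a = 0
  · exact ⟨0, fun v => by simp [ha0]⟩
  · obtain ⟨c, hc, hc1, hc2⟩ := hnorm a ha ha0
    refine ⟨(c ^ 2)⁻¹, fun v => ?_⟩
    have h1 := hqinv (c • a) ⟨hc1, hc2⟩ v v
    have h2 : q ((c • a) v) ((c • a) v) = c ^ 2 * q (a v) (a v) := by
      simp [pow_two, mul_assoc]
    rw [h2] at h1
    rw [← h1, inv_mul_cancel_left₀ (by positivity)]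

end H61

/-- Let `ρ` be an irreducible representation of a group `𝒢` on a finite-dimensional space `W`, and
`S` a subgroup which is Zariski dense (for polynomials on `End W`).  If some sequence in `ρ(𝒢)`,
suitably normalized, converges to an operator of rank one, then so does some sequence in `ρ(S)`. -/
theorem exists_rank_one_limit {W : Type*} [NormedAddCommGroup W] [NormedSpace ℝ W]
    [FiniteDimensional ℝ W] {𝒢 : Type*} [Group 𝒢] (ρ : 𝒢 →* (W →L[ℝ] W)) (S : Subgroup 𝒢)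
    (hZ : ∀ F ∈ PolyFun (W →L[ℝ] W), (∀ s ∈ S, F (ρ s) = 0) → ∀ g, F (ρ g) = 0)
    (hirr : ∀ U : Submodule ℝ W, (∀ g, ∀ v ∈ U, ρ g v ∈ U) → U = ⊥ ∨ U = ⊤)
    (hprox : ∃ (g : ℕ → 𝒢) (c : ℕ → ℝ) (p : W →L[ℝ] W),
      Tendsto (fun n => c n • ρ (g n)) atTop (𝓝 p) ∧ p ≠ 0 ∧
      Module.finrank ℝ (LinearMap.range (p : W →ₗ[ℝ] W)) ≤ 1) :
    ∃ (s : ℕ → 𝒢) (c : ℕ → ℝ) (p : W →L[ℝ] W), (∀ n, s n ∈ S) ∧
      Tendsto (fun n => c n • ρ (s n)) atTop (𝓝 p) ∧ p ≠ 0 ∧
      Module.finrank ℝ (LinearMap.range (p : W →ₗ[ℝ] W)) ≤ 1 := by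
  classical
  obtain ⟨g, cg, p, hlim, hp0, hp1⟩ := hprox
  let C : Set (W →L[ℝ] W) := {a | ∃ (c : ℝ) (s : 𝒢), s ∈ S ∧ a = c • ρ s}
  let T : Set (W →L[ℝ] W) := closure C
  have hTmul : ∀ a ∈ T, ∀ b ∈ T, a * b ∈ T := by
    intro a ha b hb
    refine map_mem_closure₂ (f := fun a b : W →L[ℝ] W => a * b) continuous_mul ha hb ?_
    rintro _ ⟨c, s, hs, rfl⟩ _ ⟨c', s', hs', rfl⟩
    refine ⟨c * c', s * s', S.mul_mem hs hs', ?_⟩
    rw [map_mul, smul_mul_smul_comm]
  have hTsmul : ∀ (c : ℝ), ∀ a ∈ T, c • a ∈ T := by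
    intro c a ha
    refine map_mem_closure (f := fun a : W →L[ℝ] W => c • a) (continuous_const_smul c) ha ?_
    rintro _ ⟨c', s, hs, rfl⟩
    exact ⟨c * c', s, hs, by rw [mul_smul]⟩
  have hTS : ∀ s ∈ S, ρ s ∈ T := fun s hs => subset_closure ⟨1, s, hs, by rw [one_smul]⟩
  have hex : ∃ r, ∃ π ∈ T, π ≠ 0 ∧ Module.finrank ℝ (LinearMap.range (π : W →ₗ[ℝ] W)) = r := by
    refine ⟨_, 1, ?_, ?_, rfl⟩
    · have := hTS 1 S.one_mem
      rwa [map_one] at this
    · intro h
      apply hp0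
      have : p = p * 1 := (mul_one p).symm
      rw [this, h, mul_zero]
  obtain ⟨π, hπT, hπ0, hπr⟩ := Nat.find_spec hex
  set r := Nat.find hex with hrdef
  have hmin : ∀ a ∈ T, a ≠ 0 → r ≤ Module.finrank ℝ (LinearMap.range (a : W →ₗ[ℝ] W)) := by
    intro a ha ha0
    exact Nat.find_min' hex ⟨a, ha, ha0, rfl⟩
  -- the case of rank at most one
  by_cases hr1 : r ≤ 1
  · obtain ⟨x, hx, hxlim⟩ := mem_closure_iff_seq_limit.mp hπT
    choose c s hs hxs using hx
    refine ⟨s, c, π, hs, ?_, hπ0, hπr.le.trans hr1⟩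
    have : (fun n => c n • ρ (s n)) = x := by
      funext n; exact (hxs n).symm
    rw [this]; exact hxlim
  exfalso
  push Not at hr1
  let I : Submodule ℝ W := LinearMap.range (π : W →ₗ[ℝ] W)
  have hIr : Module.finrank ℝ I = r := hπr
  have hIpos : 0 < Module.finrank ℝ I := by omega
  have : Nontrivial I := Module.finrank_pos_iff.mp hIpos
  let pb : W →L[ℝ] I := π.codRestrict I (fun x => LinearMap.mem_range_self (π : W →ₗ[ℝ] W) x)
  have hpb : ∀ x, (pb x : W) = π x := fun x => rfl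
  have hpbs : Function.Surjective pb := by
    rintro ⟨x, y, hy⟩
    exact ⟨y, Subtype.ext hy⟩
  let ι : I →L[ℝ] W := I.subtypeL
  let θ : (W →L[ℝ] W) → (I →L[ℝ] I) := fun a => (pb.comp a).comp ι
  have hθ : ∀ a (v : I), ((θ a v : I) : W) = π (a v) := fun a v => rfl
  have hθc : Continuous θ := by
    have h1 : Continuous fun a : W →L[ℝ] W => pb.comp a := continuous_const.clm_comp continuous_id
    exact h1.clm_comp continuous_const
  have hθmul : ∀ a b, θ a * θ b = θ (a * π * b) := by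
    intro a b
    ext v
    rfl
  have hθsmul : ∀ (c : ℝ) a, c • θ a = θ (c • a) := by
    intro c a
    ext v
    simp [θ]
  let R : Set (I →L[ℝ] I) := closure (θ '' T)
  have hRmul : ∀ a ∈ R, ∀ b ∈ R, a * b ∈ R := by
    intro a ha b hb
    have hcm : Continuous (Function.uncurry fun a b : I →L[ℝ] I => a * b) :=
      continuous_fst.clm_comp continuous_snd
    refine map_mem_closure₂ (f := fun a b : I →L[ℝ] I => a * b) hcm ha hb ?_
    rintro _ ⟨a', ha', rfl⟩ _ ⟨b', hb', rfl⟩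
    exact ⟨a' * π * b', hTmul _ (hTmul _ ha' _ hπT) _ hb', (hθmul a' b').symm⟩
  have hRsmul : ∀ (c : ℝ), ∀ a ∈ R, c • a ∈ R := by
    intro c a ha
    refine map_mem_closure (f := fun a : I →L[ℝ] I => c • a) (continuous_const_smul c) ha ?_
    rintro _ ⟨a', ha', rfl⟩
    exact ⟨c • a', hTsmul c _ ha', (hθsmul c a').symm⟩
  have hRT : ∀ x ∈ R, (ι.comp x).comp pb ∈ T := by
    intro x hx
    have hc : Continuous fun x : I →L[ℝ] I => (ι.comp x).comp pb :=
      (continuous_const.clm_comp continuous_id).clm_comp continuous_const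
    have : (ι.comp x).comp pb ∈ closure T := by
      refine map_mem_closure (f := fun x : I →L[ℝ] I => (ι.comp x).comp pb) hc hx ?_
      rintro _ ⟨a, ha, rfl⟩
      have h1 : (ι.comp (θ a)).comp pb = π * a * π := by
        ext v; rfl
      show (ι.comp (θ a)).comp pb ∈ T
      rw [h1]
      exact hTmul _ (hTmul _ hπT _ ha) _ hπT
    rwa [closure_closure] at this
  have hRdet : ∀ x ∈ R, x ≠ 0 → x.det ≠ 0 := by
    intro x hx hx0 hdet
    have h1 := hRT x hx
    have h2 : (ι.comp x).comp pb ≠ 0 := by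
      intro h
      apply hx0
      refine ContinuousLinearMap.ext fun v => ?_
      obtain ⟨w, rfl⟩ := hpbs v
      have := congrArg (fun f : W →L[ℝ] W => f w) h
      exact Subtype.ext this
    have h3 := hmin _ h1 h2
    have h4 : LinearMap.range (((ι.comp x).comp pb : W →L[ℝ] W) : W →ₗ[ℝ] W) ≤
        Submodule.map (ι : I →ₗ[ℝ] W) (LinearMap.range (x : I →ₗ[ℝ] I)) := by
      rintro _ ⟨w, rfl⟩
      exact ⟨x (pb w), ⟨pb w, rfl⟩, rfl⟩
    have h5 := Submodule.finrank_mono h4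
    have h6 := Submodule.finrank_map_le (ι : I →ₗ[ℝ] W) (LinearMap.range (x : I →ₗ[ℝ] I))
    have h7 : LinearMap.range (x : I →ₗ[ℝ] I) < ⊤ := LinearMap.range_lt_top_of_det_eq_zero hdet
    have h8 := Submodule.finrank_lt h7.ne
    omega
  -- some element of R is nonzero
  have hθρ : ∀ (a : W →L[ℝ] W) , a ≠ 0 → ∃ g, ∃ v : I, a (ρ g v) ≠ 0 := by
    intro a ha
    by_contra hcon
    push Not at hcon
    obtain ⟨v, hv⟩ := exists_ne (0 : I)
    exact ha (H61.eq_zero_of_forall ρ hirr a (v := (v : W)) (by simpa using hv)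
      (fun g => hcon g v))
  have hRne : ∃ a ∈ R, a ≠ 0 := by
    by_contra hcon
    push Not at hcon
    obtain ⟨g, v, hgv⟩ := hθρ π hπ0
    apply hgv
    -- use density
    obtain ⟨e⟩ : Nonempty (W ≃L[ℝ] EuclideanSpace ℝ (Fin (Module.finrank ℝ W))) := ⟨toEuclidean⟩
    apply e.injective
    rw [map_zero]
    ext i
    let φ : (W →L[ℝ] W) →ₗ[ℝ] ℝ :=
      { toFun := fun a => e (π (a v)) i
        map_add' := by intro a b; simp
        map_smul' := by intro c a; simp }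
    have hφ : ∀ s ∈ S, φ (ρ s) = 0 := by
      intro s hs
      have h0 := hcon (θ (ρ s)) (subset_closure ⟨_, hTS s hs, rfl⟩)
      have h1 : π (ρ s v) = 0 := by
        rw [← hθ, h0]; rfl
      show e (π (ρ s v)) i = 0
      rw [h1, map_zero]; rfl
    exact hZ φ (PolyFun.linear φ) hφ g
  obtain ⟨q, hqpos, hq⟩ := H61.exists_conformal_form (S := R) isClosed_closure hRmul hRsmul hRdet
    hRne
  -- the polynomial identity
  let F : I → I → (W →L[ℝ] W) → ℝ := fun v w a =>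
    q (θ a v) (θ a v) * q w w - q (θ a w) (θ a w) * q v v
  have hFpoly : ∀ v w, F v w ∈ PolyFun (W →L[ℝ] W) := by
    intro v w
    let B : I →ₗ[ℝ] I →ₗ[ℝ] ℝ := LinearMap.mk₂ ℝ (fun x y => q x y) (by intros; simp)
      (by intros; simp) (by intros; simp) (by intros; simp)
    have hlin : ∀ v : I, IsPolyMap fun a : W →L[ℝ] W => θ a v := by
      intro v
      let L : (W →L[ℝ] W) →ₗ[ℝ] I :=
        { toFun := fun a => θ a v
          map_add' := by intro a b; simp [θ]
          map_smul' := by intro c a; simp [θ] }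
      exact IsPolyMap.linear L
    have hB : ∀ v : I, (fun a : W →L[ℝ] W => q (θ a v) (θ a v)) ∈ PolyFun (W →L[ℝ] W) :=
      fun v => (IsPolyMap.bilin B (hlin v) (hlin v)).polyFun
    exact PolyFun.sub (PolyFun.mul (hB v) (PolyFun.const _)) (PolyFun.mul (hB w) (PolyFun.const _))
  have hFS : ∀ v w, ∀ s ∈ S, F v w (ρ s) = 0 := by
    intro v w s hs
    obtain ⟨c, hc⟩ := hq (θ (ρ s)) (subset_closure ⟨_, hTS s hs, rfl⟩)
    simp only [F, hc]
    ring
  have hFG : ∀ v w g, F v w (ρ g) = 0 := fun v w g => hZ _ (hFpoly v w) (hFS v w) g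
  have hFsmul : ∀ v w (c : ℝ) a, F v w (c • a) = c ^ 2 * F v w a := by
    intro v w c a
    simp only [F, ← hθsmul]
    simp only [FunLike.coe_smul, Pi.smul_apply, map_smul, smul_eq_mul]
    ring
  have hFc : ∀ v w, Continuous (F v w) := by
    intro v w
    exact PolyFun.continuous (hFpoly v w)
  have hFp : ∀ v w h₁ h₂, F v w (ρ h₁ * p * ρ h₂) = 0 := by
    intro v w h₁ h₂
    have h1 : Tendsto (fun n => ρ h₁ * (cg n • ρ (g n)) * ρ h₂) atTop (𝓝 (ρ h₁ * p * ρ h₂)) :=
      (tendsto_const_nhds.mul hlim).mul tendsto_const_nhds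
    have h2 := ((hFc v w).tendsto _).comp h1
    have h3 : (F v w ∘ fun n => ρ h₁ * (cg n • ρ (g n)) * ρ h₂) = fun _ => 0 := by
      funext n
      have : ρ h₁ * (cg n • ρ (g n)) * ρ h₂ = cg n • ρ (h₁ * g n * h₂) := by
        rw [map_mul, map_mul, mul_smul_comm, smul_mul_assoc]
      simp only [Function.comp_apply]
      rw [this, hFsmul, hFG, mul_zero]
    rw [h3] at h2
    exact tendsto_nhds_unique h2 tendsto_const_nhds
  have hzero : ∀ h₁ h₂, ∀ v : I, π (ρ h₁ (p (ρ h₂ v))) = 0 := by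
    intro h₁ h₂ v
    set a := ρ h₁ * p * ρ h₂ with ha
    -- a kernel vector
    have hker : ∃ w : I, w ≠ 0 ∧ θ a w = 0 := by
      by_contra hcon
      push Not at hcon
      let L : I →ₗ[ℝ] LinearMap.range (p : W →ₗ[ℝ] W) :=
        { toFun := fun w => ⟨p (ρ h₂ w), ⟨ρ h₂ w, rfl⟩⟩
          map_add' := by intro x y; ext; simp
          map_smul' := by intro c x; ext; simp }
      have hL : Function.Injective L := by
        rw [injective_iff_map_eq_zero]
        intro w hw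
        by_contra hw0
        apply hcon w hw0
        apply Subtype.ext
        rw [hθ]
        have h1 : p (ρ h₂ w) = 0 := congrArg Subtype.val hw
        show π (ρ h₁ (p (ρ h₂ w))) = 0
        rw [h1, map_zero, map_zero]
      have := LinearMap.finrank_le_finrank_of_injective hL
      omega
    obtain ⟨w, hw0, hw⟩ := hker
    have h1 := hFp v w h₁ h₂
    simp only [F] at h1
    rw [← ha, hw] at h1
    have h2 : q (θ a v) (θ a v) * q w w = 0 := by
      simpa using h1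
    have h3 : q w w ≠ 0 := (hqpos w hw0).ne'
    have h4 : q (θ a v) (θ a v) = 0 := by
      rcases mul_eq_zero.mp h2 with h | h
      · exact h
      · exact absurd h h3
    have h5 : θ a v = 0 := by
      by_contra hne
      exact (hqpos _ hne).ne' h4
    have h6 : π (a v) = 0 := by rw [← hθ, h5]; rfl
    exact h6
  obtain ⟨h₂, v, hv⟩ := hθρ p hp0
  exact hπ0 (H61.eq_zero_of_forall ρ hirr π hv (fun h₁ => hzero h₁ h₂ v))

end Pool.Agent.Lib.MP_d9b062_al
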